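import Mathlib

set_option autoImplicit false

open Polynomial

namespace Pool.Agent.Results.MP_4bcb19_an.FewCurvatureExtrema

/-- The signed curvature `p'' / (1 + p' ^ 2) ^ (3 / 2)` of the graph of `p`. -/
noncomputable def curvature (p : ℝ[X]) (x : ℝ) : ℝ :=
  (derivative (derivative p)).eval x / (1 + ((derivative p).eval x) ^ 2) ^ (3 / 2 : ℝ)

/-- The numerator of the derivative of the curvature. -/
noncomputable def num (p : ℝ[X]) (x : ℝ) : ℝ :=
  (derivative (derivative (derivative p))).eval x * (1 + ((derivative p).eval x) ^ 2) -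
    3 * (derivative p).eval x * ((derivative (derivative p)).eval x) ^ 2

lemma hasDerivAt_curvature (p : ℝ[X]) (x : ℝ) :
    HasDerivAt (curvature p)
      (num p x / (1 + ((derivative p).eval x) ^ 2) ^ (5 / 2 : ℝ)) x := by
  have h1 : HasDerivAt (fun y => (derivative p).eval y) ((derivative (derivative p)).eval x) x :=
    (derivative p).hasDerivAt x
  have h2 : HasDerivAt (fun y => (derivative (derivative p)).eval y)
      ((derivative (derivative (derivative p))).eval x) x :=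
    (derivative (derivative p)).hasDerivAt x
  set a := (derivative p).eval x with ha
  set b := (derivative (derivative p)).eval x with hb
  set c := (derivative (derivative (derivative p))).eval x with hc
  have hpos : 0 < 1 + a ^ 2 := by positivity
  have h3 : HasDerivAt (fun y => 1 + ((derivative p).eval y) ^ 2) (2 * a * b) x := by
    have := (h1.pow 2).const_add 1
    refine this.congr_deriv ?_
    simp only [Nat.cast_ofNat, Nat.add_one_sub_one, pow_one]
    ring
  have h4 := h3.rpow_const (p := (3 / 2 : ℝ)) (Or.inl hpos.ne')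
  have hpow : (0 : ℝ) < (1 + a ^ 2) ^ (3 / 2 : ℝ) := Real.rpow_pos_of_pos hpos _
  have h5 := h2.div h4 hpow.ne'
  refine h5.congr_deriv ?_
  have e1 : (1 + a ^ 2) ^ (3 / 2 : ℝ) = (1 + a ^ 2) * (1 + a ^ 2) ^ (1 / 2 : ℝ) := by
    rw [show (3 / 2 : ℝ) = 1 + 1 / 2 by norm_num, Real.rpow_add hpos, Real.rpow_one]
  have e2 : (1 + a ^ 2) ^ (5 / 2 : ℝ) = (1 + a ^ 2) ^ 2 * (1 + a ^ 2) ^ (1 / 2 : ℝ) := by
    rw [show (5 / 2 : ℝ) = 2 + 1 / 2 by norm_num, Real.rpow_add hpos]
    norm_num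
  have e3 : (1 + a ^ 2) ^ ((3 / 2 : ℝ) - 1) = (1 + a ^ 2) ^ (1 / 2 : ℝ) := by norm_num
  rw [e3, e1, e2]
  have hs : (0 : ℝ) < (1 + a ^ 2) ^ (1 / 2 : ℝ) := Real.rpow_pos_of_pos hpos _
  set s := (1 + a ^ 2) ^ (1 / 2 : ℝ) with hsdef
  unfold num
  rw [← ha, ← hb, ← hc]
  field_simp

lemma deriv_curvature_eq_zero (p : ℝ[X]) (x : ℝ) : deriv (curvature p) x = 0 ↔ num p x = 0 := by
  rw [(hasDerivAt_curvature p x).deriv]
  have hpos : 0 < 1 + ((derivative p).eval x) ^ 2 := by positivity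
  have hpow : (0 : ℝ) < (1 + ((derivative p).eval x) ^ 2) ^ (5 / 2 : ℝ) :=
    Real.rpow_pos_of_pos hpos _
  rw [div_eq_zero_iff]
  simp [hpow.ne']

/-- Even degrees: `(1 + X ^ 2) ^ (k + 1)`. -/
lemma even_case (k : ℕ) (hk : 1 ≤ k) :
    {x : ℝ | deriv (curvature ((1 + X ^ 2) ^ (k + 1))) x = 0} = {0} := by
  obtain ⟨l, rfl⟩ : ∃ l, k = l + 1 := ⟨k - 1, by omega⟩
  ext x
  simp only [Set.mem_ofPred_eq, Set.mem_singleton_iff]
  rw [deriv_curvature_eq_zero]
  set K : ℝ := (l : ℝ) + 2 with hK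
  have hK2 : 2 ≤ K := by rw [hK]; have : (0 : ℝ) ≤ l := by positivity
                         linarith
  set y : ℝ := 1 + x ^ 2 with hy
  have hy1 : 1 ≤ y := by rw [hy]; nlinarith [sq_nonneg x]
  have d1 : derivative ((1 + X ^ 2 : ℝ[X]) ^ (l + 1 + 1)) =
      C (2 * K) * X * (1 + X ^ 2) ^ (l + 1) := by
    rw [derivative_pow]
    simp only [derivative_add, derivative_one, derivative_X_pow, hK]
    simp only [Nat.add_one_sub_one, Nat.cast_add, Nat.cast_one, Nat.cast_ofNat, zero_add, pow_one,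
      map_add, map_mul, map_natCast, map_ofNat, map_one]
    ring
  have d2 : derivative (C (2 * K) * X * (1 + X ^ 2 : ℝ[X]) ^ (l + 1)) =
      C (2 * K) * (1 + X ^ 2) ^ l * (1 + C (2 * K - 1) * X ^ 2) := by
    rw [derivative_mul, derivative_mul, derivative_pow]
    simp only [derivative_add, derivative_one, derivative_X_pow, derivative_C, derivative_X, hK]
    simp only [Nat.add_one_sub_one, Nat.cast_add, Nat.cast_one, Nat.cast_ofNat, zero_add, pow_one,
      map_add, map_mul, map_natCast, map_ofNat, map_one, map_sub]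
    ring
  have e1 : (derivative ((1 + X ^ 2 : ℝ[X]) ^ (l + 1 + 1))).eval x = 2 * K * x * y ^ (l + 1) := by
    rw [d1]; simp [hy]
  have e2 : (derivative (derivative ((1 + X ^ 2 : ℝ[X]) ^ (l + 1 + 1)))).eval x =
      2 * K * y ^ l * (1 + (2 * K - 1) * x ^ 2) := by
    rw [d1, d2]; simp [hy]
  have e3 : y * (derivative (derivative (derivative ((1 + X ^ 2 : ℝ[X]) ^ (l + 1 + 1))))).eval x =
      2 * K * y ^ l * (2 * l * x * (1 + (2 * K - 1) * x ^ 2) + 2 * (2 * K - 1) * x * y) := by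
    rw [d1, d2, derivative_mul, derivative_mul, derivative_pow]
    rcases l with _ | l
    · simp [hy]
      ring
    · simp [hy]
      ring
  have key : y * num ((1 + X ^ 2) ^ (l + 1 + 1)) x = -(x * (2 * K * y ^ l) *
      ((2 * K * y ^ (l + 1)) ^ 2 * (3 + 6 * K * x ^ 2 + (2 * K - 1) * (4 * K - 1) * x ^ 4)
        - ((6 * K - 6) + (2 * K - 1) * (2 * K - 2) * x ^ 2))) := by
    have hl : (l : ℝ) = K - 2 := by rw [hK]; ring
    unfold num
    rw [mul_sub, ← mul_assoc, e3, e1, e2, hl, hy]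
    ring
  have hylp : 1 ≤ y ^ (l + 1) := one_le_pow₀ hy1
  have hyl : 0 < y ^ l := by positivity
  have hx2 : 0 ≤ x ^ 2 := sq_nonneg x
  have hbr : 0 < (2 * K * y ^ (l + 1)) ^ 2 * (3 + 6 * K * x ^ 2 + (2 * K - 1) * (4 * K - 1) * x ^ 4)
        - ((6 * K - 6) + (2 * K - 1) * (2 * K - 2) * x ^ 2) := by
    have h1 : 2 * K ≤ 2 * K * y ^ (l + 1) := by nlinarith
    have h2 : (2 * K) ^ 2 ≤ (2 * K * y ^ (l + 1)) ^ 2 := by
      apply pow_le_pow_left₀ (by linarith) h1
    have h3 : 3 + 6 * K * x ^ 2 ≤ 3 + 6 * K * x ^ 2 + (2 * K - 1) * (4 * K - 1) * x ^ 4 := by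
      have : 0 ≤ (2 * K - 1) * (4 * K - 1) * x ^ 4 := by
        apply mul_nonneg (mul_nonneg (by linarith) (by linarith)) (by positivity)
      linarith
    have h4 : 0 ≤ 3 + 6 * K * x ^ 2 := by
      have : 0 ≤ 6 * K * x ^ 2 := by positivity
      linarith
    have h5 : (2 * K) ^ 2 * (3 + 6 * K * x ^ 2) ≤ (2 * K * y ^ (l + 1)) ^ 2 *
        (3 + 6 * K * x ^ 2 + (2 * K - 1) * (4 * K - 1) * x ^ 4) :=
      mul_le_mul h2 h3 h4 (by positivity)
    have h6 : (6 * K - 6) + (2 * K - 1) * (2 * K - 2) * x ^ 2 < (2 * K) ^ 2 * (3 + 6 * K * x ^ 2) := by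
      have a1 : (2 * K - 1) * (2 * K - 2) ≤ (2 * K) ^ 2 * (6 * K) := by nlinarith
      have a2 := mul_le_mul_of_nonneg_right a1 hx2
      nlinarith
    linarith
  constructor
  · intro h
    rw [h, mul_zero] at key
    have h0 : x * (2 * K * y ^ l) * ((2 * K * y ^ (l + 1)) ^ 2 *
      (3 + 6 * K * x ^ 2 + (2 * K - 1) * (4 * K - 1) * x ^ 4)
        - ((6 * K - 6) + (2 * K - 1) * (2 * K - 2) * x ^ 2)) = 0 := by linarith
    rcases mul_eq_zero.mp h0 with h1 | h1
    · rcases mul_eq_zero.mp h1 with h2 | h2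
      · exact h2
      · exact absurd h2 (by positivity)
    · exact absurd h1 hbr.ne'
  · rintro rfl
    have hy0 : y ≠ 0 := by positivity
    have : y * num ((1 + X ^ 2) ^ (l + 1 + 1)) 0 = 0 := by rw [key]; ring
    exact (mul_eq_zero.mp this).resolve_left hy0

/-- Odd degrees (and in fact all degrees `n ≥ 4`): `X ^ n`. -/
lemma power_case (m : ℕ) (hm : 1 ≤ m) :
    ∃ c : ℝ, 0 < c ∧ {x : ℝ | deriv (curvature (X ^ (m + 3))) x = 0} = {-c, 0, c} := by
  set n : ℝ := (m : ℝ) + 3 with hn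
  have hn3 : 3 ≤ n := by rw [hn]; have : (0 : ℝ) ≤ m := by positivity
                         linarith
  -- `c ^ (2 n - 2) = (n - 2) / (n ^ 2 (2 n - 1))`
  set r : ℝ := (n - 2) / (n ^ 2 * (2 * n - 1)) with hr
  have hr0 : 0 < r := div_pos (by linarith) (by nlinarith [sq_nonneg n])
  set c : ℝ := r ^ (1 / (2 * m + 4 : ℕ) : ℝ) with hc
  have hc0 : 0 < c := Real.rpow_pos_of_pos hr0 _
  have hcp : c ^ (2 * m + 4) = r := by
    rw [hc, one_div]
    exact Real.rpow_inv_natCast_pow hr0.le (by omega)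
  refine ⟨c, hc0, ?_⟩
  ext x
  simp only [Set.mem_ofPred_eq, Set.mem_insert_iff, Set.mem_singleton_iff]
  rw [deriv_curvature_eq_zero]
  have hN : num (X ^ (m + 3)) x =
      n * (n - 1) * x ^ m * ((n - 2) - n ^ 2 * (2 * n - 1) * x ^ (2 * m + 4)) := by
    have d1 : derivative (X ^ (m + 3) : ℝ[X]) = C n * X ^ (m + 2) := by
      rw [derivative_X_pow, hn]; simp
    have d2 : derivative (C n * X ^ (m + 2) : ℝ[X]) = C (n * (n - 1)) * X ^ (m + 1) := by
      rw [derivative_C_mul, derivative_X_pow, ← mul_assoc, ← C_mul]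
      congr 2
      rw [hn]; push_cast; ring
    have d3 : derivative (C (n * (n - 1)) * X ^ (m + 1) : ℝ[X]) =
        C (n * (n - 1) * (n - 2)) * X ^ m := by
      rw [derivative_C_mul, derivative_X_pow, ← mul_assoc, ← C_mul]
      congr 2
      rw [hn]; push_cast; ring
    unfold num
    rw [d1, d2, d3]
    simp only [eval_mul, eval_C, eval_pow, eval_X]
    ring
  rw [hN]
  have hmne : m ≠ 0 := by omega
  have heven : Even (2 * m + 4) := ⟨m + 2, by ring⟩
  constructor
  · intro h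
    rcases mul_eq_zero.mp h with h1 | h1
    · rcases mul_eq_zero.mp h1 with h2 | h2
      · exact absurd h2 (mul_pos (by linarith) (by linarith)).ne'
      · exact Or.inr (Or.inl ((pow_eq_zero_iff hmne).mp h2))
    · have h3 : x ^ (2 * m + 4) = c ^ (2 * m + 4) := by
        rw [hcp, hr]
        have : n ^ 2 * (2 * n - 1) ≠ 0 := (by nlinarith [sq_nonneg n] : 0 < n ^ 2 * (2 * n - 1)).ne'
        rw [eq_div_iff this]
        linarith
      have h4 : |x| = c := by
        rw [← heven.pow_abs] at h3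
        exact (pow_left_inj₀ (abs_nonneg x) hc0.le (by omega)).mp h3
      rcases abs_eq hc0.le |>.mp h4 with h5 | h5
      · exact Or.inr (Or.inr h5)
      · exact Or.inl h5
  · have hz : (n - 2) - n ^ 2 * (2 * n - 1) * c ^ (2 * m + 4) = 0 := by
      rw [hcp, hr]
      have : n ^ 2 * (2 * n - 1) ≠ 0 := (by nlinarith [sq_nonneg n] : 0 < n ^ 2 * (2 * n - 1)).ne'
      rw [mul_div_cancel₀ _ this]
      ring
    rintro (rfl | rfl | rfl)
    · rw [heven.neg_pow, hz, mul_zero]
    · rw [zero_pow hmne]; ring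
    · rw [hz, mul_zero]

/-- **Disproof of Q1 and Q2 in every degree `n ≥ 4`.** For every `n ≥ 4` there is a real polynomial
of degree `n` whose curvature has at most `n - 2` critical points on the real line (and hence at
most `n - 2` local extrema). For even `n ≥ 4` the polynomial `(1 + x ^ 2) ^ (n / 2)` has just one
curvature-critical point; for odd `n ≥ 5` the polynomial `x ^ n` has just three. -/
theorem result :
    (∀ n : ℕ, 4 ≤ n → Even n →
      ((1 + X ^ 2 : ℝ[X]) ^ (n / 2)).natDegree = n ∧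
      {x : ℝ | deriv (curvature ((1 + X ^ 2) ^ (n / 2))) x = 0} = {0}) ∧
    (∀ n : ℕ, 5 ≤ n → Odd n → ∃ c : ℝ, 0 < c ∧
      {x : ℝ | deriv (curvature (X ^ n)) x = 0} = {-c, 0, c}) ∧
    (∀ n : ℕ, 4 ≤ n → ∃ p : ℝ[X], p.natDegree = n ∧
      {x : ℝ | deriv (curvature p) x = 0}.encard ≤ (n - 2 : ℕ) ∧
      {x : ℝ | IsLocalExtr (curvature p) x}.encard ≤ (n - 2 : ℕ)) := by
  have h1 : ∀ n : ℕ, 4 ≤ n → Even n →
      ((1 + X ^ 2 : ℝ[X]) ^ (n / 2)).natDegree = n ∧
      {x : ℝ | deriv (curvature ((1 + X ^ 2) ^ (n / 2))) x = 0} = {0} := by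
    intro n hn he
    obtain ⟨k, rfl⟩ := he
    have hk : (k + k) / 2 = k := by omega
    rw [hk]
    constructor
    · have : (1 + X ^ 2 : ℝ[X]).natDegree = 2 := by
        compute_degree!
      rw [natDegree_pow, this]; ring
    · obtain ⟨l, rfl⟩ : ∃ l, k = l + 1 := ⟨k - 1, by omega⟩
      exact even_case l (by omega)
  have h2 : ∀ n : ℕ, 5 ≤ n → Odd n → ∃ c : ℝ, 0 < c ∧
      {x : ℝ | deriv (curvature (X ^ n)) x = 0} = {-c, 0, c} := by
    intro n hn ho
    obtain ⟨m, rfl⟩ : ∃ m, n = m + 3 := ⟨n - 3, by omega⟩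
    exact power_case m (by omega)
  refine ⟨h1, h2, ?_⟩
  have hsub : ∀ p : ℝ[X], {x : ℝ | IsLocalExtr (curvature p) x} ⊆
      {x : ℝ | deriv (curvature p) x = 0} := by
    intro p x hx
    exact IsLocalExtr.deriv_eq_zero hx
  intro n hn
  rcases Nat.even_or_odd n with he | ho
  · obtain ⟨hd, hs⟩ := h1 n hn he
    refine ⟨_, hd, ?_, ?_⟩
    · rw [hs, Set.encard_singleton]
      exact_mod_cast (by omega : 1 ≤ n - 2)
    · refine (Set.encard_le_encard (hsub _)).trans ?_
      rw [hs, Set.encard_singleton]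
      exact_mod_cast (by omega : 1 ≤ n - 2)
  · have hn5 : 5 ≤ n := by
      rcases ho with ⟨k, hk⟩; omega
    obtain ⟨c, hc, hs⟩ := h2 n hn5 ho
    have h3 : ({-c, 0, c} : Set ℝ).encard ≤ (n - 2 : ℕ) := by
      refine (Set.encard_insert_le _ _).trans ?_
      have := Set.encard_insert_le ({c} : Set ℝ) (0 : ℝ)
      rw [Set.encard_singleton] at this
      refine (add_le_add_left this 1).trans ?_
      exact_mod_cast (by omega : 1 + 1 + 1 ≤ n - 2)
    refine ⟨X ^ n, natDegree_X_pow n, ?_, ?_⟩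
    · rw [hs]; exact h3
    · refine (Set.encard_le_encard (hsub _)).trans ?_
      rw [hs]; exact h3

end Pool.Agent.Results.MP_4bcb19_an.FewCurvatureExtrema
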